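import Pool.Agent.Lib.MP_608f54_al.Main

set_option autoImplicit false

namespace Pool.Agent.Results.MP_608f54_al.LinearSelfless

open Filter Topology

/-- The ball of real radius `r` around the identity in the word metric of `S`: the products of at
most `r` elements of `S ∪ S⁻¹`. -/
def wordBall {G : Type} [Group G] (S : Set G) (r : ℝ) : Set G :=
  {g | ∃ l : List G, (∀ s ∈ l, s ∈ S ∨ s⁻¹ ∈ S) ∧ l.prod = g ∧ (l.length : ℝ) ≤ r}

/-- The generating set `S ∪ {x}` of the free product `G ∗ ⟨x⟩`. -/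
def freeProductGens {G : Type} [Group G] (S : Set G) :
    Set (Monoid.Coprod G (Multiplicative ℤ)) :=
  Monoid.Coprod.inl '' S ∪ {Monoid.Coprod.inr (Multiplicative.ofAdd 1)}

/-- `G` with generating set `S` is `f`-selfless. -/
def IsSelfless {G : Type} [Group G] (S : Set G) (f : ℕ → ℝ) : Prop :=
  liminf (fun n : ℕ => f n ^ (1 / (n : ℝ))) atTop = 1 ∧
  ∀ n : ℕ, ∃ φ : Monoid.Coprod G (Multiplicative ℤ) →* G,
    (∀ g : G, φ (Monoid.Coprod.inl g) = g) ∧
    Set.InjOn φ (wordBall (freeProductGens S) n) ∧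
    Set.MapsTo φ (wordBall (freeProductGens S) n) (wordBall S (f n))

theorem result : ∃ (G : Type) (_ : Group G) (S : Finset G), Infinite G ∧
    Subgroup.closure (S : Set G) = ⊤ ∧
    ∃ f : ℕ → ℝ, IsSelfless (S : Set G) f ∧ (∀ n : ℕ, f n = 41 * n) ∧
      Tendsto (fun n : ℕ => f n / (n : ℝ) ^ 2) atTop (𝓝 0) := by
  obtain ⟨G, hG, S, h1, h2, h3⟩ := Pool.Agent.Lib.MP_608f54_al.main
  refine ⟨G, hG, S, h1, h2, fun n => 41 * n, ⟨?_, fun n => ?_⟩, fun _ => rfl, ?_⟩
  · apply Tendsto.liminf_eq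
    have h := (tendsto_rpow_div_mul_add 1 (1 / 41) 0 (by norm_num)).comp
      ((tendsto_natCast_atTop_atTop (R := ℝ)).const_mul_atTop (show (0 : ℝ) < 41 by norm_num))
    refine h.congr (fun n => ?_)
    simp only [Function.comp]
    congr 1
    ring
  · obtain ⟨φ, a1, a2, a3⟩ := h3 n
    refine ⟨φ, a1, ?_, ?_⟩
    · rintro p ⟨l, b1, b2, b3⟩ q ⟨l', c1, c2, c3⟩ h
      exact a2 p q ⟨l, b1, b2, by exact_mod_cast b3⟩ ⟨l', c1, c2, by exact_mod_cast c3⟩ h
    · rintro p ⟨l, b1, b2, b3⟩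
      obtain ⟨l', c1, c2, c3⟩ := a3 p ⟨l, b1, b2, by exact_mod_cast b3⟩
      refine ⟨l', c1, c2, ?_⟩
      change (l'.length : ℝ) ≤ 41 * n
      exact_mod_cast c3
  · have h := (tendsto_const_div_atTop_nhds_zero_nat (41 : ℝ))
    refine h.congr' ?_
    filter_upwards [eventually_gt_atTop 0] with n hn
    have : (n : ℝ) ≠ 0 := by positivity
    field_simp

end Pool.Agent.Results.MP_608f54_al.LinearSelfless
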